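import Pool.Agent.H137R3.EP.Cons

/-!
Linear relations over the algebraic numbers between `1`, `e` (or `exp α`, or powers of `e`), `π`
(or powers of `π`, or logarithms of algebraic numbers).
-/

set_option autoImplicit false

namespace Pool.Agent.Results.MP_58e087_nt.ExceptionalTriples

/-- `x, y, z` are linearly dependent over the field of algebraic numbers -/
def Dep (x y z : ℂ) : Prop :=
  ∃ a b c : ℂ, IsAlgebraic ℚ a ∧ IsAlgebraic ℚ b ∧ IsAlgebraic ℚ c ∧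
    ¬ (a = 0 ∧ b = 0 ∧ c = 0) ∧ a * x + b * y + c * z = 0

/-- the numbers `1`, `g i` (`i ∈ I`) and `ω 0, …, ω (m - 1)` are linearly independent over the
field of algebraic numbers -/
def IndepWith {ι : Type} (I : Finset ι) (g : ι → ℂ) {m : ℕ} (ω : Fin m → ℂ) : Prop :=
  ∀ (c₀ : ℂ) (c : ι → ℂ) (d : Fin m → ℂ), IsAlgebraic ℚ c₀ → (∀ i, IsAlgebraic ℚ (c i)) →
    (∀ j, IsAlgebraic ℚ (d j)) → c₀ + ∑ i ∈ I, c i * g i + ∑ j, d j * ω j = 0 →
    c₀ = 0 ∧ (∀ i ∈ I, c i = 0) ∧ ∀ j, d j = 0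

/-- the entries of `ω` are logarithms of algebraic numbers, linearly independent over `ℚ` -/
def IndepLogs {m : ℕ} (ω : Fin m → ℂ) : Prop :=
  (∀ j, IsAlgebraic ℚ (Complex.exp (ω j))) ∧ LinearIndependent ℚ ω

/-- (1) if `1, exp α, π ^ k` and `1, exp β, π ^ l` are both linearly dependent over the algebraic
numbers (`α, β ≠ 0` algebraic, `k, l ≥ 1`), then `(α, k) = (β, l)`, or `α / k = β / l` and
`exp α / π ^ k` and `exp β / π ^ l` are algebraic;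
(2) `1, exp α` is dependent with at most one class of logarithms of algebraic numbers;
(3) consequences of a linear relation between `1, e, π`;
(4) for every transcendental `θ` at least `(N - 2) / 2` of the numbers `θ, …, θ ^ N` are linearly
independent with `1` and any logarithms;
(5) for every transcendental `θ` all but two of `θ, θ ω₁, …, θ ω_m` are linearly independent with
`1, ω₁, …, ω_m`. -/
theorem result :
    (∀ (α β : ℂ) (k l : ℕ), IsAlgebraic ℚ α → α ≠ 0 → IsAlgebraic ℚ β → β ≠ 0 → 0 < k → 0 < l →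
      Dep 1 (Complex.exp α) ((Real.pi : ℂ) ^ k) → Dep 1 (Complex.exp β) ((Real.pi : ℂ) ^ l) →
      (α = β ∧ k = l) ∨ ((l : ℂ) * α = k * β ∧
        IsAlgebraic ℚ (Complex.exp α / (Real.pi : ℂ) ^ k) ∧
        IsAlgebraic ℚ (Complex.exp β / (Real.pi : ℂ) ^ l))) ∧
    (∀ α μ ν : ℂ, IsAlgebraic ℚ α → α ≠ 0 → IndepLogs ![μ, ν] →
      ¬ (Dep 1 (Complex.exp α) μ ∧ Dep 1 (Complex.exp α) ν)) ∧
    (Dep 1 (Complex.exp 1) (Real.pi : ℂ) →
      (∀ β : ℝ, IsAlgebraic ℚ β → β ≠ 0 → Transcendental ℚ (Real.exp (β * Real.exp 1))) ∧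
      (∀ μ ν : ℂ, IndepLogs ![μ, ν] → Transcendental ℚ (Complex.exp (Complex.exp 1 * μ)) ∨
        Transcendental ℚ (Complex.exp (Complex.exp 1 * ν))) ∧
      (∀ β μ : ℂ, IsAlgebraic ℚ β → β ≠ 0 → IndepLogs ![(Real.pi : ℂ) * Complex.I, μ] →
        Transcendental ℚ (Complex.exp (β * Complex.exp 1 ^ 2)) ∨
        Transcendental ℚ (Complex.exp (Complex.exp 1 * μ))) ∧
      (∀ β γ : ℂ, IsAlgebraic ℚ β → IsAlgebraic ℚ γ → β ≠ 0 → γ ≠ 0 →
        Transcendental ℚ (Complex.exp (β * Complex.exp 1 ^ 2)) ∨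
        Transcendental ℚ (Complex.exp (γ * Complex.exp 1 ^ 3)))) ∧
    (∀ θ : ℂ, Transcendental ℚ θ → ∀ N : ℕ, ∃ I : Finset ℕ, I ⊆ Finset.Icc 1 N ∧
      N ≤ 2 * I.card + 2 ∧ ∀ (m : ℕ) (ω : Fin m → ℂ), IndepLogs ω →
        IndepWith I (fun i => θ ^ i) ω) ∧
    (∀ θ : ℂ, Transcendental ℚ θ → ∀ (m : ℕ) (ω : Fin m → ℂ), IndepLogs ω →
      ∃ I : Finset (Option (Fin m)), m + 1 ≤ I.card + 2 ∧
        IndepWith I (fun i => θ * i.elim 1 ω) ω) := by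
  refine ⟨?_, ?_, ?_, ?_, ?_⟩
  · intro α β k l hα hα0 hβ hβ0 hk hl h1 h2
    exact Pool.Agent.H137R3.EP.pairs hα hα0 hβ hβ0 hk hl h1 h2
  · rintro α μ ν hα hα0 hω ⟨h1, h2⟩
    exact Pool.Agent.H137R3.EP.log_classes hα hα0 (hω.1 0) (hω.1 1) hω.2 h1 h2
  · intro h
    refine ⟨fun β hβ hβ0 => Pool.Agent.H137R3.EP.cons_real h β hβ hβ0, ?_, ?_, ?_⟩
    · intro μ ν hω
      exact Pool.Agent.H137R3.EP.cons_logs h μ ν (hω.1 0) (hω.1 1) hω.2
    · intro β μ hβ hβ0 hω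
      exact Pool.Agent.H137R3.EP.cons_mixed h β μ hβ hβ0 (hω.1 1) hω.2
    · intro β γ hβ hγ hβ0 hγ0
      exact Pool.Agent.H137R3.EP.cons_pow h β γ hβ hγ hβ0 hγ0
  · intro θ hθ N
    obtain ⟨I, h1, h2, h3⟩ := Pool.Agent.H137R3.EP.powers θ hθ N
    exact ⟨I, h1, h2, fun m ω hω c₀ c d => h3 m ω hω.1 hω.2 c₀ c d⟩
  · intro θ hθ m ω hω
    obtain ⟨I, h1, h2⟩ := Pool.Agent.H137R3.EP.multiples θ hθ m ω hω.1 hω.2
    exact ⟨I, by omega, h2⟩

end Pool.Agent.Results.MP_58e087_nt.ExceptionalTriples
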