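import Pool.Agent.H118R4.EC.Fact

set_option autoImplicit false

namespace Pool.Agent.Results.MP_58e087_nt.LacunaryCriterion

/-- The integers `1, 1, 7, 71, 1001, 18089, …`: `q 0 = q 1 = 1` and
`q (n + 2) = (4 n + 6) q (n + 1) + q n`. -/
def q : ℕ → ℕ
  | 0 => 1
  | 1 => 1
  | n + 2 => (4 * n + 6) * q (n + 1) + q n

/-- The signed distance from `x` to the nearest integer. -/
noncomputable def rem (x : ℝ) : ℝ := x - round x

/-- Linear independence of `1, e, π` over the rationals, with cleared denominators. -/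
def Indep : Prop := ∀ a b c : ℤ, (a : ℝ) + b * Real.exp 1 + c * Real.pi = 0 →
  a = 0 ∧ b = 0 ∧ c = 0

/-- The block complexity: the number of distinct blocks of `n` consecutive digits in the base `b`
expansion of the fractional part of `ξ`. -/
noncomputable def blockCount (b : ℕ) [NeZero b] (ξ : ℝ) (n : ℕ) : ℕ :=
  (Set.range fun i : ℕ => fun k : Fin n => Real.digits (Int.fract ξ) b (i + k)).ncard

theorem q_eq : ∀ n : ℕ, q n = Pool.Agent.H43R2.Cplx.EMeas.q n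
  | 0 => rfl
  | 1 => rfl
  | n + 2 => by
    rw [q, Pool.Agent.H43R2.Cplx.EMeas.q, q_eq n, q_eq (n + 1)]

/-- (1), (2) Two statements about `π` alone, each equivalent to the linear independence of
`1, e, π`: for every `m ≥ 1`, `limsup n ‖m q_n π‖ ≥ 1/4`; for every `m ≥ 1`, the signed distances
of `m n! π` to the nearest integer, multiplied by `n`, do not converge.
(3) The same for every real number `ξ` in place of `π`, with a gap: if
`limsup n ‖m q_n ξ‖ < 1/4` for some `m ≥ 1`, then `‖m' q_n ξ‖ ≤ K / q_{n+1}` for some `m' ≥ 1`.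
(4) Either `1, e, π` are linearly independent, or `π` has irrationality exponent `2` in the
strong form `|π - P/Q| ≥ C / (Q² log Q)`, its continued fraction has unbounded partial quotients,
and for its block complexity `p` in every base, `liminf p(n)/n ≥ 5/4` and
`limsup p(n)/n ≥ 3/2`. -/
theorem result :
    (Indep ↔ ∀ m : ℕ, 1 ≤ m → ∀ κ : ℝ, κ < 1 / 4 →
      ∃ᶠ n : ℕ in Filter.atTop, κ < n * |rem (m * q n * Real.pi)|) ∧
    (Indep ↔ ∀ m : ℕ, 1 ≤ m → ∀ L : ℝ,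
      ¬ Filter.Tendsto (fun n : ℕ => (n : ℝ) * rem (m * n.factorial * Real.pi))
        Filter.atTop (nhds L)) ∧
    (∀ ξ : ℝ,
      ((∃ a b c : ℤ, c ≠ 0 ∧ (a : ℝ) + b * Real.exp 1 + c * ξ = 0) ↔
        ∃ m : ℕ, 1 ≤ m ∧ ∃ κ : ℝ, κ < 1 / 4 ∧
          ∀ᶠ n : ℕ in Filter.atTop, n * |rem (m * q n * ξ)| ≤ κ) ∧
      ((∃ a b c : ℤ, c ≠ 0 ∧ (a : ℝ) + b * Real.exp 1 + c * ξ = 0) ↔
        ∃ m : ℕ, 1 ≤ m ∧ ∃ K : ℝ, ∀ n : ℕ, |rem (m * q n * ξ)| ≤ K / q (n + 1)) ∧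
      ((∃ a b c : ℤ, c ≠ 0 ∧ (a : ℝ) + b * Real.exp 1 + c * ξ = 0) ↔
        ∃ m : ℕ, 1 ≤ m ∧ ∃ L : ℝ,
          Filter.Tendsto (fun n : ℕ => (n : ℝ) * rem (m * n.factorial * ξ))
            Filter.atTop (nhds L))) ∧
    (Indep ∨
      (∃ C : ℝ, 0 < C ∧ ∀ Q : ℕ, 2 ≤ Q → ∀ P : ℤ, C ≤ Q * Real.log Q * |Q * Real.pi - P|) ∧
      (∀ ε : ℝ, 0 < ε → ∃ᶠ Q : ℕ in Filter.atTop, Q * |rem (Q * Real.pi)| ≤ ε) ∧
      (∀ (b : ℕ) [NeZero b], 2 ≤ b →
        (∀ c : ℝ, c < 5 / 4 → ∀ᶠ n : ℕ in Filter.atTop, c * n < blockCount b Real.pi n) ∧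
        (∀ c : ℝ, c < 3 / 2 → ∃ᶠ n : ℕ in Filter.atTop, c * n < blockCount b Real.pi n))) := by
  have hq : q = Pool.Agent.H43R2.Cplx.EMeas.q := funext q_eq
  rw [hq]
  refine ⟨Pool.Agent.H118R4.EC.indep_iff, Pool.Agent.H118R4.EC.indep_iff_fact,
    fun ξ => ⟨Pool.Agent.H118R4.EC.criterion ξ, ⟨?_, ?_⟩,
      Pool.Agent.H118R4.EC.fact_criterion ξ⟩, ?_⟩
  · rintro ⟨a, b, c, hc, h⟩
    exact ⟨c.natAbs, Int.natAbs_pos.mpr hc, 2 * |(b : ℝ)|,
      fun n => Pool.Agent.H118R4.EC.small_of_rel h n⟩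
  · rintro ⟨m, hm, K, hK⟩
    exact Pool.Agent.H118R4.EC.rel_of_gap hm hK
  · by_cases hI : Indep
    · exact Or.inl hI
    · obtain ⟨a, b, c, hc, h⟩ := Pool.Agent.H118R4.EC.not_indep.mp hI
      have hb := Pool.Agent.H118R4.EC.ne_zero_of_rel hc h
      have hE := Pool.Agent.H118R4.EC.exp2_of_rel hb hc h
      exact Or.inr ⟨Pool.Agent.H118R4.EC.log_of_rel hb hc h,
        fun ε hε => Pool.Agent.H118R4.EC.good_of_rel hc h hε,
        fun b _ hb2 => ⟨fun c hc2 => Pool.Agent.H43R2.Cplx.liminf_of_exp2 hE b hb2 hc2,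
          fun c hc2 => Pool.Agent.H43R2.Cplx.limsup_of_exp2 hE b hb2 hc2⟩⟩

end Pool.Agent.Results.MP_58e087_nt.LacunaryCriterion
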