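import Pool.Agent.H118R4.EP.Base

set_option autoImplicit false

namespace Pool.Agent.Results.MP_58e087_nt.RelationConsequences

/-- Consequences of a linear relation `a + b e + c π = 0` with algebraic coefficients, not all `0`.
Each failure of one of the four conclusions proves the linear independence of `1, e, π`. -/
theorem result (a b c : ℂ) (ha : IsAlgebraic ℚ a) (hb : IsAlgebraic ℚ b) (hc : IsAlgebraic ℚ c)
    (hne : ¬ (a = 0 ∧ b = 0 ∧ c = 0))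
    (h : a + b * ((Real.exp 1 : ℝ) : ℂ) + c * ((Real.pi : ℝ) : ℂ) = 0) :
    -- (i) every power `e ^ (γ e)` with `γ ≠ 0` real algebraic is transcendental
    (∀ γ : ℝ, IsAlgebraic ℚ γ → γ ≠ 0 → Transcendental ℚ (Real.exp (γ * Real.exp 1))) ∧
    -- (ii) all `n ≥ 2` with `n ^ e` or `n ^ π` algebraic are powers of one integer `r ≥ 2`
    (∃ r : ℕ, 2 ≤ r ∧ ∀ n : ℕ, 2 ≤ n →
      (IsAlgebraic ℚ ((n : ℝ) ^ Real.exp 1) ∨ IsAlgebraic ℚ ((n : ℝ) ^ Real.pi)) →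
      ∃ k : ℕ, n = r ^ k) ∧
    -- (iii) if such an `n` exists, then for `i + j = 2` and algebraic `γ ≠ 0` the numbers
    -- `exp (γ e ^ i π ^ j)` and `exp (γ e ^ i π ^ j log n)` are transcendental
    (∀ n : ℕ, 2 ≤ n →
      (IsAlgebraic ℚ ((n : ℝ) ^ Real.exp 1) ∨ IsAlgebraic ℚ ((n : ℝ) ^ Real.pi)) →
      ∀ i j : ℕ, i + j = 2 → ∀ γ : ℂ, IsAlgebraic ℚ γ → γ ≠ 0 →
        Transcendental ℚ (Complex.exp
          (γ * (((Real.exp 1 : ℝ) : ℂ) ^ i * ((Real.pi : ℝ) : ℂ) ^ j))) ∧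
        Transcendental ℚ (Complex.exp
          (γ * (((Real.exp 1 : ℝ) : ℂ) ^ i * ((Real.pi : ℝ) : ℂ) ^ j *
            ((Real.log n : ℝ) : ℂ))))) ∧
    -- (iv) for `i + j = 2`, `k + l = 3` and algebraic `γ, δ ≠ 0` one of `exp (γ e ^ i π ^ j)`,
    -- `exp (δ e ^ k π ^ l)` is transcendental
    (∀ i j k l : ℕ, i + j = 2 → k + l = 3 → ∀ γ δ : ℂ, IsAlgebraic ℚ γ → IsAlgebraic ℚ δ →
      γ ≠ 0 → δ ≠ 0 →
      Transcendental ℚ (Complex.exp
          (γ * (((Real.exp 1 : ℝ) : ℂ) ^ i * ((Real.pi : ℝ) : ℂ) ^ j))) ∨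
        Transcendental ℚ (Complex.exp
          (δ * (((Real.exp 1 : ℝ) : ℂ) ^ k * ((Real.pi : ℝ) : ℂ) ^ l)))) :=
  Pool.Agent.H118R4.EP.final a b c ha hb hc hne h

end Pool.Agent.Results.MP_58e087_nt.RelationConsequences
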